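import Pool.Agent.V11147.MasF

namespace Pool.Agent.Results.MP_b4bd03_co.UpperBound

open Pool.Agent.V11147

/-- Every minimal ascent sequence `s` for the decreasing pattern of length `k ≥ 3` satisfies
`3 |s| + 4 ≤ 4 k ^ 2 + 3 k`, and `|s| ≤ k ^ 2 + 2 k - 2` for `k = 3, 4, 5`. -/
theorem result (k : ℕ) (hk : 3 ≤ k) (s : List ℕ) (h : Mas.IsMinimalFor (Mas.delta k) s) :
    3 * s.length + 4 ≤ 4 * k ^ 2 + 3 * k ∧ (k ≤ 5 → s.length ≤ k ^ 2 + 2 * k - 2) :=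
  Mas.upper hk h

end Pool.Agent.Results.MP_b4bd03_co.UpperBound
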